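import Pool.Agent.Helper23.Hyper.Count

/-!
# Growth of the extremal sequences
-/

open Filter Topology

namespace Pool.Agent.Helper23.Hyper

/-- Squeeze: nested intervals of geometrically decreasing length. -/
theorem squeeze_limit (lo hi : ℕ → ℝ) (ρ C : ℝ) (hρ0 : 0 ≤ ρ) (hρ1 : ρ < 1)
    (hlo : Monotone lo) (hhi : Antitone hi) (hle : ∀ n, lo n ≤ hi n)
    (hd : ∀ n, hi n - lo n ≤ C * ρ ^ n) :
    ∃ L, (∀ n, lo n ≤ L) ∧ ∀ x : ℕ → ℝ, (∀ n, lo n ≤ x n ∧ x n ≤ hi n) → Tendsto x atTop (𝓝 L) := by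
  have hb : BddAbove (Set.range lo) := by
    refine ⟨hi 0, ?_⟩
    rintro _ ⟨n, rfl⟩
    exact (hle n).trans (hhi (Nat.zero_le n))
  have h1 : Tendsto lo atTop (𝓝 (⨆ n, lo n)) := tendsto_atTop_ciSup hlo hb
  refine ⟨⨆ n, lo n, fun n => le_ciSup hb n, ?_⟩
  intro x hx
  have h2 : Tendsto (fun n => C * ρ ^ n) atTop (𝓝 0) := by
    have := (tendsto_pow_atTop_nhds_zero_of_lt_one hρ0 hρ1).const_mul C
    simpa using this
  have h3 : Tendsto (fun n => lo n + C * ρ ^ n) atTop (𝓝 (⨆ n, lo n)) := by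
    simpa using h1.add h2
  exact tendsto_of_tendsto_of_tendsto_of_le_of_le h1 h3 (fun n => (hx n).1)
    (fun n => by have := (hx n).2; have := hd n; simp only; linarith)

/-- The polynomial identity behind the growth rate. -/
theorem quartic_of_octic {β : ℝ} (hβ : 5 / 2 ≤ β) (h : β ^ 8 - 8 * β ^ 6 + 10 * β ^ 4 + 1 = 0) :
    β ^ 4 = 2 * β ^ 3 + 2 * β ^ 2 - 2 * β + 1 := by
  have h1 : (β ^ 4 - 2 * β ^ 3 - 2 * β ^ 2 + 2 * β - 1) *
      (β ^ 4 + 2 * β ^ 3 - 2 * β ^ 2 - 2 * β - 1) = 0 := by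
    rw [← h]; ring
  rcases mul_eq_zero.mp h1 with h2 | h2
  · linarith
  · exfalso
    have h3 : β ^ 4 = β ^ 2 * β ^ 2 := by ring
    have h4 : β ^ 3 = β ^ 2 * β := by ring
    have h5 : (25 : ℝ) / 4 ≤ β ^ 2 := by nlinarith
    nlinarith [mul_nonneg (sub_nonneg.mpr h5) (sub_nonneg.mpr hβ), sq_nonneg (β ^ 2 - 25 / 4)]

/-- The greatest root is at least `5/2`. -/
theorem root_ge {β : ℝ} (h : IsGreatest {z : ℝ | z ^ 8 - 8 * z ^ 6 + 10 * z ^ 4 + 1 = 0} β) :
    5 / 2 ≤ β := by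
  have hcont : ContinuousOn (fun z : ℝ => z ^ 8 - 8 * z ^ 6 + 10 * z ^ 4 + 1) (Set.Icc (5 / 2) 3) := by
    fun_prop
  have := intermediate_value_Icc (by norm_num : (5 / 2 : ℝ) ≤ 3) hcont
  have h0 : (0 : ℝ) ∈ Set.Icc ((5 / 2 : ℝ) ^ 8 - 8 * (5 / 2 : ℝ) ^ 6 + 10 * (5 / 2 : ℝ) ^ 4 + 1)
      ((3 : ℝ) ^ 8 - 8 * (3 : ℝ) ^ 6 + 10 * (3 : ℝ) ^ 4 + 1) := by
    constructor <;> norm_num
  obtain ⟨z, hz, hz0⟩ := this h0
  exact hz.1.trans (h.2 hz0)

section

variable {β : ℝ} (hβ : 5 / 2 ≤ β) (h4 : β ^ 4 = 2 * β ^ 3 + 2 * β ^ 2 - 2 * β + 1)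

include hβ h4

/-- Perron–Frobenius for the four sequences. -/
theorem perron : ∃ L : ℝ, 0 < L ∧ Tendsto (fun n => (Q n : ℝ) / β ^ n) atTop (𝓝 L) ∧
    ∃ c : ℝ, 0 < c ∧ ∀ n : ℕ, c * β ^ (n + 1) ≤ P (n + 1) := by
  have hβ0 : 0 < β := by linarith
  set vQ := β - 1 with hvQ
  set vR := β ^ 2 - 2 * β with hvR
  set vS := β ^ 3 - 2 * β ^ 2 - β with hvS
  have hQ0 : 0 < vQ := by rw [hvQ]; linarith
  have hR0 : 0 < vR := by rw [hvR]; nlinarith
  have hS0 : 0 < vS := by
    rw [hvS, show β ^ 3 - 2 * β ^ 2 - β = β * (β * (β - 2) - 1) by ring]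
    apply mul_pos hβ0
    nlinarith
  -- eigenvector equations
  have eQ : 1 + vQ + vR = β * vQ := by rw [hvQ, hvR]; ring
  have eR : 1 + vQ + vS = β * vR := by rw [hvQ, hvR, hvS]; ring
  have eS : 1 + vR = β * vS := by rw [hvR, hvS]; nlinarith
  have eP : 1 + vQ = β := by rw [hvQ]; ring
  set p : ℕ → ℝ := fun n => (P n : ℝ) / β ^ n with hp
  set q : ℕ → ℝ := fun n => (Q n : ℝ) / (vQ * β ^ n) with hq
  set r : ℕ → ℝ := fun n => (R n : ℝ) / (vR * β ^ n) with hr
  set s : ℕ → ℝ := fun n => (S n : ℝ) / (vS * β ^ n) with hs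
  have hpow : ∀ n : ℕ, 0 < β ^ n := fun n => pow_pos hβ0 n
  have rp : ∀ n, β * p (n + 1) = p n + vQ * q n := by
    intro n
    simp only [hp, hq]
    have := hpow n
    rw [P_succ]; push_cast
    field_simp
    ring
  have rq : ∀ n, β * vQ * q (n + 1) = p n + vQ * q n + vR * r n := by
    intro n
    simp only [hp, hq, hr]
    have := hpow n
    rw [Q_succ]; push_cast
    field_simp
    ring
  have rr : ∀ n, β * vR * r (n + 1) = p n + vQ * q n + vS * s n := by
    intro n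
    simp only [hp, hq, hr, hs]
    have := hpow n
    rw [R_succ]; push_cast
    field_simp
    ring
  have rs : ∀ n, β * vS * s (n + 1) = p n + vR * r n := by
    intro n
    simp only [hp, hr, hs]
    have := hpow n
    rw [S_succ]; push_cast
    field_simp
    ring
  -- contraction factor
  set W := β * (1 + vQ + vR + vS) with hW
  have hW0 : 0 < W := by positivity
  set δ := 1 / W with hδ
  have hδ0 : 0 < δ := by positivity
  have hδ1 : δ ≤ 1 := by
    rw [hδ, div_le_one hW0, hW]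
    nlinarith
  set lo : ℕ → ℝ := fun n => min (min (p n) (q n)) (min (r n) (s n)) with hlo
  set hi : ℕ → ℝ := fun n => max (max (p n) (q n)) (max (r n) (s n)) with hhi
  have lop : ∀ n, lo n ≤ p n := fun n => (min_le_left _ _).trans (min_le_left _ _)
  have loq : ∀ n, lo n ≤ q n := fun n => (min_le_left _ _).trans (min_le_right _ _)
  have lor : ∀ n, lo n ≤ r n := fun n => (min_le_right _ _).trans (min_le_left _ _)
  have los : ∀ n, lo n ≤ s n := fun n => (min_le_right _ _).trans (min_le_right _ _)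
  have hip : ∀ n, p n ≤ hi n := fun n => (le_max_left _ _).trans (le_max_left _ _)
  have hiq : ∀ n, q n ≤ hi n := fun n => (le_max_right _ _).trans (le_max_left _ _)
  have hir : ∀ n, r n ≤ hi n := fun n => (le_max_left _ _).trans (le_max_right _ _)
  have his : ∀ n, s n ≤ hi n := fun n => (le_max_right _ _).trans (le_max_right _ _)
  -- key averaging inequality
  have avg : ∀ (w A m : ℝ) (x : ℝ), 0 < w → w ≤ 1 + vQ + vR + vS → β * w * x = m + A →
      ∀ (n : ℕ), m = p n → (β * w - 1) * lo n ≤ A → A ≤ (β * w - 1) * hi n →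
      δ * p n + (1 - δ) * lo n ≤ x ∧ x ≤ δ * p n + (1 - δ) * hi n := by
    intro w A m x hw hw' hx n hm h1 h2
    have hbw : 0 < β * w := mul_pos hβ0 hw
    have hδw : δ * (β * w) ≤ 1 := by
      rw [hδ, div_mul_eq_mul_div, one_mul, div_le_one hW0, hW]
      exact mul_le_mul_of_nonneg_left hw' hβ0.le
    subst hm
    constructor
    · have h5 : β * w * (δ * p n + (1 - δ) * lo n) ≤ β * w * x := by
        rw [hx]
        have h6 := mul_nonneg (sub_nonneg.mpr hδw) (sub_nonneg.mpr (lop n))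
        nlinarith
      exact le_of_mul_le_mul_left h5 hbw
    · have h5 : β * w * x ≤ β * w * (δ * p n + (1 - δ) * hi n) := by
        rw [hx]
        have h6 := mul_nonneg (sub_nonneg.mpr hδw) (sub_nonneg.mpr (hip n))
        nlinarith
      exact le_of_mul_le_mul_left h5 hbw
  have step : ∀ n, δ * p n + (1 - δ) * lo n ≤ lo (n + 1) ∧
      hi (n + 1) ≤ δ * p n + (1 - δ) * hi n := by
    intro n
    have a1 := avg 1 (vQ * q n) (p n) (p (n + 1)) one_pos (by linarith) (by rw [mul_one]; exact rp n)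
      n rfl (by rw [mul_one, show β - 1 = vQ by rw [hvQ]]; exact mul_le_mul_of_nonneg_left (loq n) hQ0.le)
      (by rw [mul_one, show β - 1 = vQ by rw [hvQ]]; exact mul_le_mul_of_nonneg_left (hiq n) hQ0.le)
    have a2 := avg vQ (vQ * q n + vR * r n) (p n) (q (n + 1)) hQ0 (by linarith)
      (by rw [rq n]; ring) n rfl
      (by rw [← eQ]; nlinarith [mul_le_mul_of_nonneg_left (loq n) hQ0.le,
            mul_le_mul_of_nonneg_left (lor n) hR0.le])
      (by rw [← eQ]; nlinarith [mul_le_mul_of_nonneg_left (hiq n) hQ0.le,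
            mul_le_mul_of_nonneg_left (hir n) hR0.le])
    have a3 := avg vR (vQ * q n + vS * s n) (p n) (r (n + 1)) hR0 (by linarith)
      (by rw [rr n]; ring) n rfl
      (by rw [← eR]; nlinarith [mul_le_mul_of_nonneg_left (loq n) hQ0.le,
            mul_le_mul_of_nonneg_left (los n) hS0.le])
      (by rw [← eR]; nlinarith [mul_le_mul_of_nonneg_left (hiq n) hQ0.le,
            mul_le_mul_of_nonneg_left (his n) hS0.le])
    have a4 := avg vS (vR * r n) (p n) (s (n + 1)) hS0 (by linarith)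
      (by rw [rs n]) n rfl
      (by rw [← eS]; nlinarith [mul_le_mul_of_nonneg_left (lor n) hR0.le])
      (by rw [← eS]; nlinarith [mul_le_mul_of_nonneg_left (hir n) hR0.le])
    exact ⟨le_min (le_min a1.1 a2.1) (le_min a3.1 a4.1),
      max_le (max_le a1.2 a2.2) (max_le a3.2 a4.2)⟩
  have hmono : Monotone lo := by
    apply monotone_nat_of_le_succ
    intro n
    have h1 := (step n).1
    have h2 := mul_le_mul_of_nonneg_left (lop n) hδ0.le
    nlinarith
  have hanti : Antitone hi := by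
    apply antitone_nat_of_succ_le
    intro n
    have h1 := (step n).2
    have h2 := mul_le_mul_of_nonneg_left (hip n) hδ0.le
    nlinarith
  have hdiff : ∀ n, hi n - lo n ≤ (hi 0 - lo 0) * (1 - δ) ^ n := by
    intro n
    induction n with
    | zero => simp
    | succ n ih =>
      have h1 := step n
      have h2 : hi (n + 1) - lo (n + 1) ≤ (1 - δ) * (hi n - lo n) := by linarith [h1.1, h1.2]
      refine h2.trans ?_
      rw [pow_succ]
      have := mul_le_mul_of_nonneg_left ih (sub_nonneg.mpr hδ1)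
      calc (1 - δ) * (hi n - lo n) ≤ (1 - δ) * ((hi 0 - lo 0) * (1 - δ) ^ n) := this
        _ = (hi 0 - lo 0) * ((1 - δ) ^ n * (1 - δ)) := by ring
  obtain ⟨L, hL, hx⟩ := squeeze_limit lo hi (1 - δ) (hi 0 - lo 0) (sub_nonneg.mpr hδ1)
    (by linarith) hmono hanti (fun n => (lop n).trans (hip n)) hdiff
  have hlo1 : 0 < lo 1 := by
    have e1 : P 1 = 1 := by decide
    have e2 : Q 1 = 1 := by decide
    have e3 : R 1 = 1 := by decide
    have e4 : S 1 = 1 := by decide
    simp only [hlo, hp, hq, hr, hs, e1, e2, e3, e4]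
    apply lt_min (lt_min _ _) (lt_min _ _) <;> positivity
  have hL0 : 0 < L := hlo1.trans_le (hL 1)
  refine ⟨vQ * L, mul_pos hQ0 hL0, ?_, lo 1, hlo1, ?_⟩
  · have h1 : Tendsto q atTop (𝓝 L) := hx q (fun n => ⟨loq n, hiq n⟩)
    have h2 := h1.const_mul vQ
    refine h2.congr ?_
    intro n
    simp only [hq]
    have := hpow n
    field_simp
  · intro n
    have h1 : lo 1 ≤ p (n + 1) := (hmono (by omega)).trans (lop _)
    simp only [hp] at h1
    rwa [le_div_iff₀ (hpow _)] at h1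

end

theorem Q_rec (n : ℕ) : Q (n + 4) + 2 * Q (n + 1) = 2 * Q (n + 3) + 2 * Q (n + 2) + Q n := by
  have e1 : Q (n + 4) = P (n + 3) + Q (n + 3) + R (n + 3) := Q_succ _
  have e2 : Q (n + 3) = P (n + 2) + Q (n + 2) + R (n + 2) := Q_succ _
  have e3 : Q (n + 2) = P (n + 1) + Q (n + 1) + R (n + 1) := Q_succ _
  have e4 : Q (n + 1) = P n + Q n + R n := Q_succ _
  have f1 : P (n + 3) = P (n + 2) + Q (n + 2) := P_succ _
  have f2 : P (n + 2) = P (n + 1) + Q (n + 1) := P_succ _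
  have f3 : P (n + 1) = P n + Q n := P_succ _
  have g1 : R (n + 3) = P (n + 2) + Q (n + 2) + S (n + 2) := R_succ _
  have g2 : R (n + 2) = P (n + 1) + Q (n + 1) + S (n + 1) := R_succ _
  have g3 : R (n + 1) = P n + Q n + S n := R_succ _
  have k1 : S (n + 2) = P (n + 1) + R (n + 1) := S_succ _
  have k2 : S (n + 1) = P n + R n := S_succ _
  omega

end Pool.Agent.Helper23.Hyper
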