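import Pool.Agent.Helper23.Hyper.Elim

/-!
# Hyperplane sections of `{0, ±1, ±2}^n` and lists
-/

namespace Pool.Agent.Helper23.Hyper

/-- The number of points `x ∈ {-2, -1, 0, 1, 2}^n` on the hyperplane `∑ a_i x_i = T`. -/
noncomputable def secCount {n : ℕ} (a : Fin n → ℤ) (T : ℤ) : ℕ :=
  ((Fintype.piFinset (fun _ : Fin n => Finset.Icc (-2 : ℤ) 2)).filter
    (fun x => ∑ i, a i * x i = T)).card

/-- `a` is triangular: all entries are nonzero and they can be listed in an order
`a_{σ 0}, …, a_{σ (n-1)}` such that for every position `i` there is a prime `p` at which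
`a_{σ i}` has strictly smaller valuation than all later entries. -/
def Triangular {n : ℕ} (a : Fin n → ℤ) : Prop :=
  (∀ i, a i ≠ 0) ∧ ∃ σ : Equiv.Perm (Fin n), ∀ i, ∃ p : ℕ, p.Prime ∧
    ∀ j, i < j → padicValInt p (a (σ i)) < padicValInt p (a (σ j))

/-- The hyperplane `∑ a_i x_i = 0` meets `{0, ±1}^n` only in `0`. -/
def Admissible {n : ℕ} (a : Fin n → ℤ) : Prop :=
  ∀ x ∈ Fintype.piFinset (fun _ : Fin n => Finset.Icc (-1 : ℤ) 1), ∑ i, a i * x i = 0 → x = 0

theorem secCount_succ {n : ℕ} (a : Fin (n + 1) → ℤ) (T : ℤ) :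
    secCount a T = ∑ y ∈ Finset.Icc (-2 : ℤ) 2, secCount (fun i => a i.succ) (T - y * a 0) := by
  unfold secCount
  rw [Finset.card_eq_sum_card_fiberwise (f := fun x => x 0) (t := Finset.Icc (-2 : ℤ) 2)]
  · apply Finset.sum_congr rfl
    intro y hy
    apply Finset.card_nbij' (i := fun x => Fin.tail x) (j := fun x => Fin.cons y x)
    · intro x hx
      simp only [Finset.coe_filter, Finset.mem_filter, Fintype.mem_piFinset, Set.mem_ofPred_eq] at hx ⊢
      obtain ⟨⟨h1, h2⟩, h3⟩ := hx
      refine ⟨fun i => h1 i.succ, ?_⟩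
      rw [Fin.sum_univ_succ, h3] at h2
      simp only [Fin.tail]
      linarith
    · intro x hx
      simp only [Finset.coe_filter, Finset.mem_filter, Fintype.mem_piFinset, Set.mem_ofPred_eq] at hx ⊢
      obtain ⟨h1, h2⟩ := hx
      refine ⟨⟨?_, ?_⟩, by simp⟩
      · intro i
        refine Fin.cases ?_ (fun i => ?_) i
        · simpa using hy
        · simpa using h1 i
      · rw [Fin.sum_univ_succ]
        simp only [Fin.cons_zero, Fin.cons_succ]
        rw [h2]; ring
    · intro x hx
      simp only [Finset.coe_filter, Finset.mem_filter, Fintype.mem_piFinset, Set.mem_ofPred_eq] at hx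
      obtain ⟨_, h3⟩ := hx
      subst h3
      exact Fin.cons_self_tail x
    · intro x hx
      exact Fin.tail_cons _ _
  · intro x hx
    simp only [Finset.coe_filter, Fintype.mem_piFinset, Set.mem_ofPred_eq] at hx
    exact Finset.mem_coe.mpr (hx.1 0)

theorem secCount_eq : ∀ {n : ℕ} (a : Fin n → ℤ) (T : ℤ), secCount a T = cnt (List.ofFn a) T := by
  intro n
  induction n with
  | zero =>
    intro a T
    unfold secCount
    simp only [Finset.univ_eq_empty, Finset.sum_empty, List.ofFn_zero, cnt]
    by_cases h : T = 0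
    · subst h; simp
    · rw [if_neg h]
      rw [Finset.card_eq_zero, Finset.filter_eq_empty_iff]
      intro x _ h'
      exact h h'.symm
  | succ n ih =>
    intro a T
    rw [secCount_succ, List.ofFn_succ]
    simp only [cnt, ← ih]
    rw [show Finset.Icc (-2 : ℤ) 2 = {-2, -1, 0, 1, 2} from by decide]
    rw [Finset.sum_insert (by decide), Finset.sum_insert (by decide), Finset.sum_insert (by decide),
      Finset.sum_insert (by decide), Finset.sum_singleton]
    rw [show T - -2 * a 0 = T + 2 * a 0 by ring, show T - -1 * a 0 = T + a 0 by ring,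
      show T - 0 * a 0 = T by ring, show T - 1 * a 0 = T - a 0 by ring]
    ring

theorem elim_ofFn : ∀ {n : ℕ} (b : Fin n → ℤ), (∀ i, b i ≠ 0) →
    (∀ i, ∃ p : ℕ, p.Prime ∧ ∀ j, i < j → padicValInt p (b i) < padicValInt p (b j)) →
    Elim (List.ofFn b) := by
  intro n
  induction n with
  | zero => intro b _ _; rw [List.ofFn_zero]; exact Elim.nil
  | succ n ih =>
    intro b h0 h
    rw [List.ofFn_succ]
    obtain ⟨p, hp, hj⟩ := h 0
    refine Elim.cons p hp (h0 0) ?_ ?_
    · intro w hw
      rw [List.mem_ofFn] at hw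
      obtain ⟨i, rfl⟩ := hw
      exact ⟨h0 _, hj _ (Fin.succ_pos i)⟩
    · apply ih
      · intro i; exact h0 _
      · intro i
        obtain ⟨q, hq, hk⟩ := h i.succ
        exact ⟨q, hq, fun j hj' => hk j.succ (Fin.succ_lt_succ_iff.mpr hj')⟩

theorem Triangular.elim {n : ℕ} {a : Fin n → ℤ} (h : Triangular a) :
    ∃ l : List ℤ, l.Perm (List.ofFn a) ∧ Elim l := by
  obtain ⟨h0, σ, hσ⟩ := h
  exact ⟨List.ofFn (a ∘ σ), Equiv.Perm.ofFn_comp_perm σ a, elim_ofFn _ (fun i => h0 _) hσ⟩

theorem cnt_le_triangular {n : ℕ} (hn : 1 ≤ n) {a : Fin n → ℤ} (h : Triangular a) (T : ℤ) :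
    cnt (List.ofFn a) T ≤ Q n := by
  obtain ⟨l, hp, he⟩ := h.elim
  have hl : l.length = n := by rw [hp.length_eq, List.length_ofFn]
  rw [← cnt_perm hp T]
  have := cnt_le_of_elim l (by intro h0; rw [h0] at hl; simp at hl; omega) he T
  rwa [hl] at this

/-- Splitting off the sub-vector indexed by an embedding. -/
theorem ofFn_perm {n k : ℕ} (a : Fin n → ℤ) (e : Fin k ↪ Fin n) :
    ∃ r : List ℤ, r.length = n - k ∧ (List.ofFn a).Perm (r ++ List.ofFn (a ∘ e)) := by
  classical
  refine ⟨((Finset.univ \ Finset.univ.map e).toList).map a, ?_, ?_⟩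
  · rw [List.length_map, Finset.length_toList, Finset.card_sdiff_of_subset (Finset.subset_univ _)]
    simp
  · rw [← Multiset.coe_eq_coe, ← Multiset.coe_add, ← Multiset.map_coe, Finset.coe_toList]
    have h1 : ∀ {m : ℕ} (f : Fin m → ℤ),
        ((List.ofFn f : List ℤ) : Multiset ℤ) = (Finset.univ : Finset (Fin m)).val.map f := by
      intro m f
      rw [List.ofFn_eq_map, ← Multiset.map_coe]
      rfl
    rw [h1, h1]
    have h2 : (Finset.univ : Finset (Fin k)).val.map (a ∘ e) =
        (Finset.univ.map e).val.map a := by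
      rw [Finset.map_val, Multiset.map_map]
    rw [h2, ← Multiset.map_add]
    congr 1
    rw [Finset.sdiff_val]
    exact (tsub_add_cancel_of_le (Finset.val_le_iff.mpr (Finset.subset_univ _))).symm

theorem secCount_le {n k : ℕ} (a : Fin n → ℤ) (e : Fin k ↪ Fin n) (T : ℤ) (hk : 1 ≤ k)
    (h : Triangular (a ∘ e)) : secCount a T ≤ 5 ^ (n - k) * Q k := by
  obtain ⟨r, hr, hp⟩ := ofFn_perm a e
  rw [secCount_eq, cnt_perm hp, ← hr]
  exact cnt_append_le _ _ (fun T => cnt_le_triangular hk h T) _ _

theorem sum_eq_zipWith : ∀ {n : ℕ} (a x : Fin n → ℤ),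
    ∑ i, a i * x i = (List.zipWith (fun a b => a * b) (List.ofFn a) (List.ofFn x)).sum := by
  intro n
  induction n with
  | zero => intro a x; simp
  | succ n ih =>
    intro a x
    rw [List.ofFn_succ, List.ofFn_succ, List.zipWith_cons_cons, List.sum_cons, ← ih,
      Fin.sum_univ_succ]

theorem Triangular.admissible {n : ℕ} {a : Fin n → ℤ} (h : Triangular a) : Admissible a := by
  obtain ⟨h0, σ, hσ⟩ := h
  intro x hx hs
  have he : Elim (List.ofFn (a ∘ σ)) := elim_ofFn _ (fun i => h0 _) hσ
  have hs' : ∑ i, (a ∘ σ) i * (x ∘ σ) i = 0 := by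
    rw [← hs]
    exact Equiv.sum_comp σ (fun i => a i * x i)
  rw [sum_eq_zipWith] at hs'
  have := he.dissociated (List.ofFn (x ∘ σ)) (by simp) (by
    intro y hy
    rw [List.mem_ofFn] at hy
    obtain ⟨i, rfl⟩ := hy
    have h1 := Fintype.mem_piFinset.mp hx (σ i)
    rw [Finset.mem_Icc] at h1
    simp only [Function.comp]
    omega) hs'
  funext i
  have h1 := this (x i) (by
    rw [List.mem_ofFn]
    exact ⟨σ.symm i, by simp⟩)
  simpa using h1

theorem ofFn_pows : ∀ m : ℕ, List.ofFn (fun i : Fin m => (2 : ℤ) ^ (i : ℕ)) = pows m := by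
  intro m
  induction m with
  | zero => rfl
  | succ m ih =>
    rw [List.ofFn_succ, pows, ← ih]
    simp only [Fin.val_zero, pow_zero, Fin.val_succ, List.map_ofFn]
    congr 2
    funext i
    simp only [Function.comp]
    ring

/-- The vector `(jac m, 2, 4, …, 2^m)`. -/
def special (m : ℕ) : Fin (m + 1) → ℤ := Fin.cons (jac m) (fun i : Fin m => 2 * 2 ^ (i : ℕ))

theorem ofFn_special (m : ℕ) :
    List.ofFn (special m) = jac m :: (pows m).map (fun x => 2 * x) := by
  rw [List.ofFn_succ, ← ofFn_pows]
  simp only [special, Fin.cons_zero, Fin.cons_succ, List.map_ofFn]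
  rfl

theorem val_pow_two (j : ℕ) : padicValInt 2 ((2 : ℤ) * 2 ^ j) = j + 1 := by
  induction j with
  | zero =>
    rw [val_double (by norm_num), pow_zero, val_odd (by norm_num)]
  | succ j ih =>
    rw [val_double (by positivity), pow_succ, mul_comm, ih]

theorem special_triangular (m : ℕ) : Triangular (special (m + 1)) := by
  have hj := jac_odd m
  refine ⟨?_, Equiv.refl _, ?_⟩
  · intro i
    refine Fin.cases ?_ (fun i => ?_) i
    · simp only [special, Fin.cons_zero]
      intro h0; rw [h0] at hj; norm_num at hj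
    · simp only [special, Fin.cons_succ]
      positivity
  · intro i
    refine ⟨2, Nat.prime_two, ?_⟩
    intro j hij
    simp only [Equiv.refl_apply]
    induction j using Fin.cases with
    | zero => exact absurd hij (Fin.not_lt_zero _)
    | succ j =>
      induction i using Fin.cases with
      | zero =>
        simp only [special, Fin.cons_zero, Fin.cons_succ]
        rw [val_odd hj, val_pow_two]
        omega
      | succ i =>
        simp only [special, Fin.cons_succ]
        rw [val_pow_two, val_pow_two]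
        have := Fin.succ_lt_succ_iff.mp hij
        have : (i : ℕ) < j := this
        omega

theorem secCount_special (m : ℕ) : 2 * P (m + 1) ≤ secCount (special (m + 1)) 0 := by
  rw [secCount_eq, ofFn_special]
  exact cnt_special m

theorem secCount_pows (n : ℕ) : ∃ T, secCount (fun i : Fin n => (2 : ℤ) ^ (i : ℕ)) T = Q n := by
  refine ⟨jac n + (-1) ^ n, ?_⟩
  rw [secCount_eq, ofFn_pows]
  exact (pows_values n).2.1

end Pool.Agent.Helper23.Hyper
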