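import Mathlib

/-!
# Counting points of `{0, ±1, ±2}^n` on hyperplanes with distinct 2-adic valuations

`cnt l T` is the number of ways of writing `T = ∑ x_i l_i` with `x_i ∈ {-2, …, 2}`.
-/

namespace Pool.Agent.Helper23.Hyper

/-- The number of ways of writing `T = ∑ x_i l_i` with all `x_i ∈ {-2, …, 2}`. -/
def cnt : List ℤ → ℤ → ℕ
  | [], T => if T = 0 then 1 else 0
  | u :: l, T => cnt l (T + 2 * u) + cnt l (T + u) + cnt l T + cnt l (T - u) + cnt l (T - 2 * u)

theorem cnt_perm {l l' : List ℤ} (h : l.Perm l') : ∀ T, cnt l T = cnt l' T := by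
  induction h with
  | nil => intro T; rfl
  | cons u _ ih => intro T; simp only [cnt, ih]
  | swap u v l =>
    intro T
    simp only [cnt]
    ring_nf
  | trans _ _ ih1 ih2 => intro T; rw [ih1, ih2]

theorem cnt_append_le (l2 : List ℤ) (B : ℕ) (hB : ∀ T, cnt l2 T ≤ B) :
    ∀ (l1 : List ℤ) (T : ℤ), cnt (l1 ++ l2) T ≤ 5 ^ l1.length * B := by
  intro l1
  induction l1 with
  | nil => intro T; simpa using hB T
  | cons u l ih =>
    intro T
    simp only [List.cons_append, cnt, List.length_cons]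
    have h1 := ih (T + 2 * u)
    have h2 := ih (T + u)
    have h3 := ih T
    have h4 := ih (T - u)
    have h5 := ih (T - 2 * u)
    have h6 : 5 ^ (l.length + 1) * B = 5 * (5 ^ l.length * B) := by ring
    omega

theorem cnt_double (l : List ℤ) : ∀ c : ℤ,
    cnt (l.map (fun x => 2 * x)) (2 * c) = cnt l c ∧
      cnt (l.map (fun x => 2 * x)) (2 * c + 1) = 0 := by
  induction l with
  | nil =>
    intro c
    constructor
    · simp only [List.map_nil, cnt]
      by_cases h : c = 0
      · simp [h]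
      · rw [if_neg (by omega), if_neg h]
    · simp only [List.map_nil, cnt]
      rw [if_neg (by omega)]
  | cons u l ih =>
    intro c
    constructor
    · simp only [List.map_cons, cnt]
      rw [show 2 * c + 2 * (2 * u) = 2 * (c + 2 * u) by ring,
        show 2 * c + 2 * u = 2 * (c + u) by ring,
        show 2 * c - 2 * u = 2 * (c - u) by ring,
        show 2 * c - 2 * (2 * u) = 2 * (c - 2 * u) by ring,
        (ih _).1, (ih _).1, (ih _).1, (ih _).1, (ih _).1]
    · simp only [List.map_cons, cnt]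
      rw [show 2 * c + 1 + 2 * (2 * u) = 2 * (c + 2 * u) + 1 by ring,
        show 2 * c + 1 + 2 * u = 2 * (c + u) + 1 by ring,
        show 2 * c + 1 - 2 * u = 2 * (c - u) + 1 by ring,
        show 2 * c + 1 - 2 * (2 * u) = 2 * (c - 2 * u) + 1 by ring,
        (ih _).2, (ih _).2, (ih _).2, (ih _).2, (ih _).2]

/-- One odd coefficient, even target. -/
theorem cnt_cons_even (w : ℤ) (l : List ℤ) (c : ℤ) :
    cnt ((2 * w + 1) :: l.map (fun x => 2 * x)) (2 * c) =
      cnt l (c + (2 * w + 1)) + cnt l c + cnt l (c - (2 * w + 1)) := by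
  simp only [cnt]
  rw [show 2 * c + 2 * (2 * w + 1) = 2 * (c + (2 * w + 1)) by ring,
    show 2 * c + (2 * w + 1) = 2 * (c + w) + 1 by ring,
    show 2 * c - (2 * w + 1) = 2 * (c - w - 1) + 1 by ring,
    show 2 * c - 2 * (2 * w + 1) = 2 * (c - (2 * w + 1)) by ring,
    (cnt_double l _).1, (cnt_double l _).2, (cnt_double l _).1, (cnt_double l _).2,
    (cnt_double l _).1]
  ring

/-- One odd coefficient, odd target. -/
theorem cnt_cons_odd (w : ℤ) (l : List ℤ) (c : ℤ) :
    cnt ((2 * w + 1) :: l.map (fun x => 2 * x)) (2 * c + 1) =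
      cnt l (c + w + 1) + cnt l (c - w) := by
  simp only [cnt]
  rw [show 2 * c + 1 + 2 * (2 * w + 1) = 2 * (c + (2 * w + 1)) + 1 by ring,
    show 2 * c + 1 + (2 * w + 1) = 2 * (c + w + 1) by ring,
    show 2 * c + 1 - (2 * w + 1) = 2 * (c - w) by ring,
    show 2 * c + 1 - 2 * (2 * w + 1) = 2 * (c - (2 * w + 1)) + 1 by ring,
    (cnt_double l _).2, (cnt_double l _).1, (cnt_double l _).2, (cnt_double l _).1,
    (cnt_double l _).2]
  ring

/-! ### The four extremal sequences -/

/-- The four extremal sequences `(P, Q, R, S)`. -/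
def quad : ℕ → ℕ × ℕ × ℕ × ℕ
  | 0 => (1, 0, 0, 0)
  | n + 1 => ((quad n).1 + (quad n).2.1, (quad n).1 + (quad n).2.1 + (quad n).2.2.1,
      (quad n).1 + (quad n).2.1 + (quad n).2.2.2, (quad n).1 + (quad n).2.2.1)

/-- Odd targets. -/
def P (n : ℕ) : ℕ := (quad n).1
/-- The overall maximum. -/
def Q (n : ℕ) : ℕ := (quad n).2.1
/-- Targets divisible by four. -/
def R (n : ℕ) : ℕ := (quad n).2.2.1
/-- An auxiliary sequence. -/
def S (n : ℕ) : ℕ := (quad n).2.2.2

theorem P_succ (n : ℕ) : P (n + 1) = P n + Q n := rfl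
theorem Q_succ (n : ℕ) : Q (n + 1) = P n + Q n + R n := rfl
theorem R_succ (n : ℕ) : R (n + 1) = P n + Q n + S n := rfl
theorem S_succ (n : ℕ) : S (n + 1) = P n + R n := rfl

theorem ineqs : ∀ n : ℕ, P (n + 1) ≤ R (n + 1) ∧ R (n + 1) ≤ Q (n + 1) ∧ S (n + 1) ≤ R (n + 1) ∧
    Q (n + 1) + S (n + 1) ≤ 2 * R (n + 1) ∧ 2 * R (n + 1) ≤ Q (n + 1) + 2 * S (n + 1) := by
  intro n
  induction n with
  | zero => decide
  | succ n ih =>
    rw [P_succ (n + 1), Q_succ (n + 1), R_succ (n + 1), S_succ (n + 1)]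
    omega

/-- The induction hypothesis. -/
structure Good (k : ℕ) (N : ℤ → ℕ) : Prop where
  all : ∀ t, N t ≤ Q k
  odd : ∀ t, t % 2 = 1 → N t ≤ P k
  pair : ∀ e f, e % 2 = 0 → f % 2 = 0 → (e + f) % 4 = 2 → N e + N f ≤ Q k + R k
  triple : ∀ t v, t % 2 = 0 → v % 2 = 1 → N (t - v) + N t + N (t + v) ≤ R (k + 1)

theorem Good.triple_odd {k : ℕ} {N : ℤ → ℕ} (h : Good k N) (t v : ℤ) (ht : t % 2 = 1)
    (hv : v % 2 = 1) : N (t - v) + N t + N (t + v) ≤ Q (k + 1) := by
  have h1 := h.odd t ht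
  have h2 := h.pair (t - v) (t + v) (by omega) (by omega) (by omega)
  rw [Q_succ]
  omega

/-- The step with an odd coefficient `2 w + 1`. -/
theorem Good.step {k : ℕ} {N N' : ℤ → ℕ} (h : Good (k + 1) N) (w : ℤ)
    (he : ∀ c, N' (2 * c) = N (c + (2 * w + 1)) + N c + N (c - (2 * w + 1)))
    (ho : ∀ c, N' (2 * c + 1) = N (c + w + 1) + N (c - w)) : Good (k + 2) N' := by
  have hi := ineqs k
  have hi' := ineqs (k + 1)
  have e1 : P (k + 1 + 1) = P (k + 1) + Q (k + 1) := P_succ _
  have e2 : Q (k + 1 + 1) = P (k + 1) + Q (k + 1) + R (k + 1) := Q_succ _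
  have e3 : R (k + 1 + 1) = P (k + 1) + Q (k + 1) + S (k + 1) := R_succ _
  have e4 : S (k + 1 + 1) = P (k + 1) + R (k + 1) := S_succ _
  have e5 : R (k + 1 + 1 + 1) = P (k + 1 + 1) + Q (k + 1 + 1) + S (k + 1 + 1) := R_succ _
  -- even targets
  have E1 : ∀ c : ℤ, c % 2 = 1 → N' (2 * c) ≤ Q (k + 1 + 1) := by
    intro c hc
    have := h.triple_odd c (2 * w + 1) hc (by omega)
    rw [he]; omega
  have E0 : ∀ c : ℤ, c % 2 = 0 → N' (2 * c) ≤ R (k + 1 + 1) := by
    intro c hc
    have := h.triple c (2 * w + 1) hc (by omega)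
    rw [he]; omega
  have O : ∀ c : ℤ, N' (2 * c + 1) ≤ P (k + 1 + 1) := by
    intro c
    rw [ho]
    rcases Int.emod_two_eq_zero_or_one (c - w) with hc | hc
    · have h1 := h.all (c - w)
      have h2 := h.odd (c + w + 1) (by omega)
      omega
    · have h1 := h.odd (c - w) hc
      have h2 := h.all (c + w + 1)
      omega
  refine ⟨?_, ?_, ?_, ?_⟩
  · intro t
    rcases Int.emod_two_eq_zero_or_one t with ht | ht
    · obtain ⟨c, rfl⟩ : ∃ c, t = 2 * c := ⟨t / 2, by omega⟩
      rcases Int.emod_two_eq_zero_or_one c with hc | hc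
      · have := E0 c hc
        show N' (2 * c) ≤ Q (k + 1 + 1)
        omega
      · exact E1 c hc
    · obtain ⟨c, rfl⟩ : ∃ c, t = 2 * c + 1 := ⟨t / 2, by omega⟩
      have := O c
      show N' (2 * c + 1) ≤ Q (k + 1 + 1)
      omega
  · intro t ht
    obtain ⟨c, rfl⟩ : ∃ c, t = 2 * c + 1 := ⟨t / 2, by omega⟩
    exact O c
  · intro e f hee hf hef
    obtain ⟨c, rfl⟩ : ∃ c, e = 2 * c := ⟨e / 2, by omega⟩
    obtain ⟨d, rfl⟩ : ∃ d, f = 2 * d := ⟨f / 2, by omega⟩
    show N' (2 * c) + N' (2 * d) ≤ Q (k + 1 + 1) + R (k + 1 + 1)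
    rcases Int.emod_two_eq_zero_or_one c with hc | hc
    · have h1 := E0 c hc
      have h2 := E1 d (by omega)
      omega
    · have h1 := E1 c hc
      have h2 := E0 d (by omega)
      omega
  · intro t v ht hv
    obtain ⟨c, rfl⟩ : ∃ c, t = 2 * c := ⟨t / 2, by omega⟩
    obtain ⟨z, rfl⟩ : ∃ z, v = 2 * z + 1 := ⟨v / 2, by omega⟩
    show N' (2 * c - (2 * z + 1)) + N' (2 * c) + N' (2 * c + (2 * z + 1)) ≤ R (k + 1 + 1 + 1)
    rw [show 2 * c - (2 * z + 1) = 2 * (c - z - 1) + 1 by ring,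
      show 2 * c + (2 * z + 1) = 2 * (c + z) + 1 by ring, ho, ho]
    rw [show c - z - 1 + w + 1 = c - z + w by ring]
    -- the four points
    have key : N (c - z + w) + N (c - z - 1 - w) + (N (c + z + w + 1) + N (c + z - w)) +
        N' (2 * c) ≤ R (k + 1 + 1 + 1) := by
      rcases Int.emod_two_eq_zero_or_one (c + z + w + 1) with hA | hA
      · -- evens: `c + z + w + 1` and `c - z - 1 - w`
        have o1 := h.odd (c - z + w) (by omega)
        have o2 := h.odd (c + z - w) (by omega)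
        rcases Int.emod_two_eq_zero_or_one c with hc | hc
        · have h1 := E0 c hc
          have h2 := h.all (c + z + w + 1)
          have h3 := h.all (c - z - 1 - w)
          omega
        · have h1 := E1 c hc
          have h2 := h.pair (c + z + w + 1) (c - z - 1 - w) hA (by omega) (by omega)
          omega
      · -- evens: `c - z + w` and `c + z - w`
        have o1 := h.odd (c + z + w + 1) (by omega)
        have o2 := h.odd (c - z - 1 - w) (by omega)
        rcases Int.emod_two_eq_zero_or_one c with hc | hc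
        · have h1 := E0 c hc
          have h2 := h.all (c - z + w)
          have h3 := h.all (c + z - w)
          omega
        · have h1 := E1 c hc
          have h2 := h.pair (c - z + w) (c + z - w) (by omega) (by omega) (by omega)
          omega
    omega

/-- The step without odd coefficient. -/
theorem Good.gap {k : ℕ} {N N' : ℤ → ℕ} (h : Good (k + 1) N)
    (he : ∀ c, N' (2 * c) = N c) (ho : ∀ c, N' (2 * c + 1) = 0) : Good (k + 1) N' := by
  have hi := ineqs k
  have e3 : R (k + 1 + 1) = P (k + 1) + Q (k + 1) + S (k + 1) := R_succ _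
  have O : ∀ t : ℤ, t % 2 = 1 → N' t = 0 := by
    intro t ht
    obtain ⟨c, rfl⟩ : ∃ c, t = 2 * c + 1 := ⟨t / 2, by omega⟩
    exact ho c
  refine ⟨?_, ?_, ?_, ?_⟩
  · intro t
    rcases Int.emod_two_eq_zero_or_one t with ht | ht
    · obtain ⟨c, rfl⟩ : ∃ c, t = 2 * c := ⟨t / 2, by omega⟩
      rw [he]; exact h.all c
    · rw [O t ht]; exact Nat.zero_le _
  · intro t ht
    rw [O t ht]; exact Nat.zero_le _
  · intro e f hee hf hef
    obtain ⟨c, rfl⟩ : ∃ c, e = 2 * c := ⟨e / 2, by omega⟩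
    obtain ⟨d, rfl⟩ : ∃ d, f = 2 * d := ⟨f / 2, by omega⟩
    rw [he, he]
    rcases Int.emod_two_eq_zero_or_one c with hc | hc
    · have h1 := h.all c
      have h2 := h.odd d (by omega)
      omega
    · have h1 := h.odd c hc
      have h2 := h.all d
      omega
  · intro t v ht hv
    obtain ⟨c, rfl⟩ : ∃ c, t = 2 * c := ⟨t / 2, by omega⟩
    rw [O (2 * c - v) (by omega), O (2 * c + v) (by omega), he]
    have := h.all c
    omega

theorem good_one {N : ℤ → ℕ} (h : ∀ t, N t ≤ 1) : Good 1 N := by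
  refine ⟨fun t => h t, fun t _ => h t, fun e f _ _ _ => ?_, fun t v _ _ => ?_⟩
  · have h1 := h e; have h2 := h f
    have : Q 1 + R 1 = 2 := by decide
    omega
  · have h1 := h (t - v); have h2 := h t; have h3 := h (t + v)
    have : R (1 + 1) = 3 := by decide
    omega

end Pool.Agent.Helper23.Hyper
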