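import Pool.Agent.Helper23.Hyper.Scale

/-!
# Lists that can be eliminated by valuations
-/

namespace Pool.Agent.Helper23.Hyper

/-- A list of nonzero integers that can be eliminated from the left: for each entry there is a
prime at which it has strictly smaller valuation than all later entries. -/
inductive Elim : List ℤ → Prop
  | nil : Elim []
  | cons {u : ℤ} {l : List ℤ} (p : ℕ) (hp : p.Prime) (hu : u ≠ 0)
      (h : ∀ w ∈ l, w ≠ 0 ∧ padicValInt p u < padicValInt p w) (hl : Elim l) : Elim (u :: l)

theorem Elim.of_mul (c : ℤ) (hc : c ≠ 0) : ∀ {l : List ℤ},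
    Elim (l.map (fun x => c * x)) → Elim l := by
  intro l
  induction l with
  | nil => intro _; exact Elim.nil
  | cons u l ih =>
    intro h
    rw [List.map_cons] at h
    cases h with
    | cons p hp hu h hl =>
      have : Fact p.Prime := ⟨hp⟩
      have hu' : u ≠ 0 := fun h0 => hu (by rw [h0, mul_zero])
      refine Elim.cons p hp hu' ?_ (ih hl)
      intro w hw
      obtain ⟨h1, h2⟩ := h (c * w) (List.mem_map_of_mem hw)
      have hw' : w ≠ 0 := fun h0 => h1 (by rw [h0, mul_zero])
      refine ⟨hw', ?_⟩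
      rw [padicValInt.mul hc hu', padicValInt.mul hc hw'] at h2
      omega

theorem good_step_two {k : ℕ} {l : List ℤ} (h : Good (k + 1) (cnt l)) {u : ℤ}
    (hu : ¬ (2 : ℤ) ∣ u) : Good (k + 2) (cnt (u :: l.map (fun x => 2 * x))) := by
  obtain ⟨w, rfl⟩ : ∃ w, u = 2 * w + 1 := ⟨u / 2, by omega⟩
  exact h.step w (cnt_cons_even w l) (cnt_cons_odd w l)

theorem good_step_three {k : ℕ} {l : List ℤ} (h : Good (k + 1) (cnt l)) {u : ℤ}
    (hu : ¬ (3 : ℤ) ∣ u) : Good (k + 2) (cnt (u :: l.map (fun x => 3 * x))) := by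
  apply h.step_three u
  intro t
  have h3 : (3 : ℤ) ≠ 0 := by norm_num
  simp only [cnt]
  by_cases h0 : (3 : ℤ) ∣ t
  · obtain ⟨c, rfl⟩ := h0
    refine ⟨c, ?_, Or.inl (by omega)⟩
    rw [cnt_mul 3 h3, cnt_mul_zero 3 l _ (by omega), cnt_mul_zero 3 l _ (by omega),
      cnt_mul_zero 3 l _ (by omega), cnt_mul_zero 3 l _ (by omega)]
    omega
  by_cases h1 : (3 : ℤ) ∣ t + u
  · obtain ⟨c, hc⟩ := h1
    obtain rfl : t = 3 * c - u := by omega
    refine ⟨c - u, ?_, Or.inl (by omega)⟩
    rw [show 3 * c - u + u = 3 * c by ring, show 3 * c - u - 2 * u = 3 * (c - u) by ring,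
      cnt_mul 3 h3, cnt_mul 3 h3, cnt_mul_zero 3 l _ (by omega), cnt_mul_zero 3 l _ (by omega),
      cnt_mul_zero 3 l _ (by omega), show c - u + u = c by ring]
    omega
  · obtain ⟨c, hc⟩ : (3 : ℤ) ∣ t - u := by
      have ht3 : t % 3 = 1 ∨ t % 3 = 2 := by omega
      have hu3 : u % 3 = 1 ∨ u % 3 = 2 := by omega
      rcases ht3 with ht3 | ht3 <;> rcases hu3 with hu3 | hu3 <;> omega
    obtain rfl : t = 3 * c + u := by omega
    refine ⟨c, ?_, Or.inr (by omega)⟩
    rw [show 3 * c + u - u = 3 * c by ring, show 3 * c + u + 2 * u = 3 * (c + u) by ring,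
      cnt_mul 3 h3, cnt_mul 3 h3, cnt_mul_zero 3 l _ (by omega), cnt_mul_zero 3 l _ (by omega),
      cnt_mul_zero 3 l _ (by omega)]
    omega

theorem good_step_large {k : ℕ} {l : List ℤ} (h : Good (k + 1) (cnt l)) {p : ℕ} (hp : p.Prime)
    (h5 : 5 ≤ p) {u : ℤ} (hu : ¬ (p : ℤ) ∣ u) :
    Good (k + 2) (cnt (u :: l.map (fun x => (p : ℤ) * x))) := by
  have hp0 : (p : ℤ) ≠ 0 := by exact_mod_cast hp.ne_zero
  have hpz : Prime (p : ℤ) := Nat.prime_iff_prime_int.mp hp
  have key : ∀ m : ℤ, m ≠ 0 → -4 ≤ m → m ≤ 4 → ¬ (p : ℤ) ∣ m * u := by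
    intro m hm h1 h2 hd
    rcases hpz.dvd_or_dvd hd with h3 | h3
    · obtain ⟨q, hq⟩ := h3
      have hq0 : q ≠ 0 := by rintro rfl; simp at hq; exact hm hq
      have h5' : (5 : ℤ) ≤ p := by exact_mod_cast h5
      rcases lt_or_gt_of_ne hq0 with hq1 | hq1
      · nlinarith
      · nlinarith
    · exact hu h3
  have hterm : ∀ t : ℤ, cnt (l.map (fun x => (p : ℤ) * x)) t ≤ Q (k + 1) := by
    intro t
    by_cases hd : (p : ℤ) ∣ t
    · obtain ⟨s, rfl⟩ := hd
      rw [cnt_mul _ hp0]; exact h.all s
    · rw [cnt_mul_zero _ l t hd]; exact Nat.zero_le _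
  have hz : ∀ (t : ℤ) (i j : ℤ), i ≠ j → -4 ≤ i - j → i - j ≤ 4 → (p : ℤ) ∣ t + j * u →
      cnt (l.map (fun x => (p : ℤ) * x)) (t + i * u) = 0 := by
    intro t i j hij h1 h2 hd
    apply cnt_mul_zero
    intro hd'
    apply key (i - j) (sub_ne_zero.mpr hij) h1 h2
    have := dvd_sub hd' hd
    rwa [show t + i * u - (t + j * u) = (i - j) * u by ring] at this
  apply Good.of_le
  intro t
  simp only [cnt]
  rw [show t + u = t + 1 * u by ring, show t - u = t + (-1) * u by ring,
    show t - 2 * u = t + (-2) * u by ring,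
    show cnt (l.map (fun x => (p : ℤ) * x)) t = cnt (l.map (fun x => (p : ℤ) * x)) (t + 0 * u) by
      rw [zero_mul, add_zero]]
  by_cases d2 : (p : ℤ) ∣ t + 2 * u
  · rw [hz t 1 2 (by norm_num) (by norm_num) (by norm_num) d2,
      hz t 0 2 (by norm_num) (by norm_num) (by norm_num) d2,
      hz t (-1) 2 (by norm_num) (by norm_num) (by norm_num) d2,
      hz t (-2) 2 (by norm_num) (by norm_num) (by norm_num) d2]
    simpa using hterm _
  rw [cnt_mul_zero _ l _ d2]
  by_cases d1 : (p : ℤ) ∣ t + 1 * u
  · rw [hz t 0 1 (by norm_num) (by norm_num) (by norm_num) d1,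
      hz t (-1) 1 (by norm_num) (by norm_num) (by norm_num) d1,
      hz t (-2) 1 (by norm_num) (by norm_num) (by norm_num) d1]
    simpa using hterm _
  rw [cnt_mul_zero _ l _ d1]
  by_cases d0 : (p : ℤ) ∣ t + 0 * u
  · rw [hz t (-1) 0 (by norm_num) (by norm_num) (by norm_num) d0,
      hz t (-2) 0 (by norm_num) (by norm_num) (by norm_num) d0]
    simpa using hterm _
  rw [cnt_mul_zero _ l _ d0]
  by_cases e1 : (p : ℤ) ∣ t + (-1) * u
  · rw [hz t (-2) (-1) (by norm_num) (by norm_num) (by norm_num) e1]
    simpa using hterm _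
  rw [cnt_mul_zero _ l _ e1]
  simpa using hterm _

theorem good_step_prime {k : ℕ} {l : List ℤ} (h : Good (k + 1) (cnt l)) {p : ℕ} (hp : p.Prime)
    {u : ℤ} (hu : ¬ (p : ℤ) ∣ u) :
    Good (k + 2) (cnt (u :: l.map (fun x => (p : ℤ) * x))) := by
  by_cases h2 : p = 2
  · subst h2; exact good_step_two h hu
  by_cases h3 : p = 3
  · subst h3; exact good_step_three h hu
  have h4 : p ≠ 4 := by rintro rfl; exact absurd hp (by decide)
  have := hp.two_le
  exact good_step_large h hp (by omega) hu

theorem good_elim : ∀ (n : ℕ) (l : List ℤ), l.length = n + 1 → Elim l → Good (n + 1) (cnt l) := by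
  intro n
  induction n with
  | zero =>
    intro l hl he
    cases he with
    | nil => simp at hl
    | cons p hp hu h he' =>
      rename_i u l'
      have : l' = [] := by simpa using hl
      subst this
      exact good_one (fun t => cnt_single u t hu)
  | succ n ih =>
    intro l hl he
    cases he with
    | nil => simp at hl
    | cons p hp hu h he' =>
      rename_i u l'
      have hfact : Fact p.Prime := ⟨hp⟩
      have hp0 : (p : ℤ) ≠ 0 := by exact_mod_cast hp.ne_zero
      set e := padicValInt p u with hedef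
      -- factor `u`
      obtain ⟨u1, hu1⟩ : (p : ℤ) ^ e ∣ u := by
        have := (padicValInt_dvd_iff (p := p) e u).mpr (Or.inr le_rfl)
        exact_mod_cast this
      have hu1p : ¬ (p : ℤ) ∣ u1 := by
        rintro ⟨q, rfl⟩
        have h1 : ((p : ℤ) ^ (e + 1)) ∣ u := ⟨q, by rw [hu1]; ring⟩
        have h2 := (padicValInt_dvd_iff (p := p) (e + 1) u).mp (by exact_mod_cast h1)
        rcases h2 with h2 | h2
        · exact hu h2
        · omega
      -- factor the rest
      have hdiv : ∀ w ∈ l', (p : ℤ) ^ (e + 1) ∣ w := by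
        intro w hw
        have h1 := (h w hw).2
        have := (padicValInt_dvd_iff (p := p) (e + 1) w).mpr (Or.inr (by omega))
        exact_mod_cast this
      set l1 := l'.map (fun x => x / (p : ℤ) ^ (e + 1)) with hl1
      have hl1' : l1.map (fun x => (p : ℤ) ^ (e + 1) * x) = l' := by
        rw [hl1, List.map_map]
        conv_rhs => rw [← List.map_id l']
        apply List.map_congr_left
        intro w hw
        simp only [Function.comp, id]
        exact Int.mul_ediv_cancel' (hdiv w hw)
      have he1 : Elim l1 := Elim.of_mul ((p : ℤ) ^ (e + 1)) (pow_ne_zero _ hp0) (by rw [hl1']; exact he')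
      have hlen : l1.length = n + 1 := by
        rw [hl1, List.length_map]; simpa using hl
      have g := good_step_prime (ih l1 hlen he1) hp hu1p
      have g2 := Good.scale (k := n + 1) _ ((p : ℤ) ^ e) le_rfl (pow_ne_zero _ hp0) g
      have hfin : (u1 :: l1.map (fun x => (p : ℤ) * x)).map (fun x => (p : ℤ) ^ e * x) = u :: l' := by
        rw [List.map_cons, ← hu1, List.map_map]
        congr 1
        conv_rhs => rw [← hl1']
        apply List.map_congr_left
        intro x _
        simp only [Function.comp]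
        ring
      rw [hfin] at g2
      exact g2

/-- The maximum for eliminable lists. -/
theorem cnt_le_of_elim (l : List ℤ) (hl : l ≠ []) (h : Elim l) (T : ℤ) : cnt l T ≤ Q l.length := by
  obtain ⟨k, hk⟩ : ∃ k, l.length = k + 1 := by
    have := List.length_pos_of_ne_nil hl
    exact ⟨l.length - 1, by omega⟩
  rw [hk]
  exact (good_elim k l hk h).all T

/-- Eliminable lists are dissociated. -/
theorem Elim.dissociated : ∀ {l : List ℤ}, Elim l → ∀ x : List ℤ, x.length = l.length →
    (∀ y ∈ x, y = -1 ∨ y = 0 ∨ y = 1) → (List.zipWith (fun a b => a * b) l x).sum = 0 →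
    ∀ y ∈ x, y = 0 := by
  intro l h
  induction h with
  | nil =>
    intro x hx _ _ y hy
    have : x = [] := by simpa using hx
    simp [this] at hy
  | @cons u l p hp hu h hl ih =>
    intro x hx hx1 hs
    obtain ⟨z, x', rfl⟩ : ∃ z x', x = z :: x' := by
      cases x with
      | nil => simp at hx
      | cons z x' => exact ⟨z, x', rfl⟩
    have hfact : Fact p.Prime := ⟨hp⟩
    rw [List.zipWith_cons_cons, List.sum_cons] at hs
    have hdvd : ((p : ℤ) ^ (padicValInt p u + 1)) ∣ (List.zipWith (fun a b => a * b) l x').sum := by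
      apply List.dvd_sum
      intro y hy
      obtain ⟨i, hi, rfl⟩ := List.mem_iff_getElem.mp hy
      rw [List.getElem_zipWith]
      apply dvd_mul_of_dvd_left
      have hi' : i < l.length := by
        rw [List.length_zipWith] at hi; omega
      have h1 := (h _ (List.getElem_mem hi')).2
      have := (padicValInt_dvd_iff (p := p) (padicValInt p u + 1) _).mpr (Or.inr (by
        exact h1))
      exact_mod_cast this
    have hz : z = 0 := by
      by_contra hz0
      have h1 : ((p : ℤ) ^ (padicValInt p u + 1)) ∣ u * z := by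
        have : u * z = -(List.zipWith (fun a b => a * b) l x').sum := by linarith
        rw [this]
        exact (dvd_neg).mpr hdvd
      have h2 : ((p : ℤ) ^ (padicValInt p u + 1)) ∣ u := by
        rcases hx1 z (by simp) with h3 | h3 | h3
        · rw [h3] at h1; simpa using h1
        · exact absurd h3 hz0
        · rw [h3] at h1; simpa using h1
      have h3 := (padicValInt_dvd_iff (p := p) (padicValInt p u + 1) u).mp (by exact_mod_cast h2)
      rcases h3 with h3 | h3
      · exact hu h3
      · omega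
    rw [hz, mul_zero, zero_add] at hs
    intro y hy
    rw [List.mem_cons] at hy
    rcases hy with rfl | hy
    · exact hz
    · exact ih x' (by simpa using hx) (fun y hy => hx1 y (by simp [hy])) hs y hy

end Pool.Agent.Helper23.Hyper
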