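import Pool.Agent.Helper23.Hyper.Count

/-!
# Lists with pairwise distinct 2-adic valuations
-/

namespace Pool.Agent.Helper23.Hyper

theorem val_odd {u : ℤ} (h : u % 2 = 1) : padicValInt 2 u = 0 := by
  apply padicValInt.eq_zero_of_not_dvd
  intro hd
  have : (2 : ℤ) ∣ u := by exact_mod_cast hd
  omega

theorem val_double {x : ℤ} (h : x ≠ 0) : padicValInt 2 (2 * x) = padicValInt 2 x + 1 := by
  haveI : Fact (Nat.Prime 2) := ⟨Nat.prime_two⟩
  rw [padicValInt.mul (by norm_num) h]
  have : padicValInt 2 (2 : ℤ) = 1 := by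
    have := padicValInt.self (p := 2) (by norm_num)
    exact_mod_cast this
  rw [this]
  ring

theorem val_even {u : ℤ} (h0 : u ≠ 0) (h : padicValInt 2 u ≠ 0) : u % 2 = 0 := by
  by_contra hne
  exact h (val_odd (by omega))

theorem cnt_single (u t : ℤ) (hu : u ≠ 0) : cnt [u] t ≤ 1 := by
  simp only [cnt]
  by_cases h1 : t + 2 * u = 0
  · rw [if_pos h1, if_neg (by omega), if_neg (by omega), if_neg (by omega), if_neg (by omega)]
  by_cases h2 : t + u = 0
  · rw [if_neg h1, if_pos h2, if_neg (by omega), if_neg (by omega), if_neg (by omega)]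
  by_cases h3 : t = 0
  · rw [if_neg h1, if_neg h2, if_pos h3, if_neg (by omega), if_neg (by omega)]
  by_cases h4 : t - u = 0
  · rw [if_neg h1, if_neg h2, if_neg h3, if_pos h4, if_neg (by omega)]
  rw [if_neg h1, if_neg h2, if_neg h3, if_neg h4]
  split_ifs <;> omega

/-- Halving a list of even integers. -/
theorem halve (l : List ℤ) (h : ∀ u ∈ l, u % 2 = 0) :
    (l.map (fun x => x / 2)).map (fun x => 2 * x) = l := by
  rw [List.map_map]
  conv_rhs => rw [← List.map_id l]
  apply List.map_congr_left
  intro u hu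
  have := h u hu
  simp only [Function.comp, id]
  omega

theorem sum_halve (l : List ℤ) (h : ∀ u ∈ l, u % 2 = 0) :
    (l.map Int.natAbs).sum = 2 * ((l.map (fun x => x / 2)).map Int.natAbs).sum := by
  induction l with
  | nil => simp
  | cons u l ih =>
    have hu := h u (by simp)
    have ih' := ih (fun w hw => h w (by simp [hw]))
    simp only [List.map_cons, List.sum_cons]
    rw [ih']
    omega

theorem sum_pos (l : List ℤ) (hl : l ≠ []) (h : ∀ u ∈ l, u ≠ 0) : 0 < (l.map Int.natAbs).sum := by
  obtain ⟨u, l', rfl⟩ := List.exists_cons_of_ne_nil hl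
  have := h u (by simp)
  simp only [List.map_cons, List.sum_cons]
  omega

theorem nodup_halve (l : List ℤ) (h0 : ∀ u ∈ l, u ≠ 0) (h : ∀ u ∈ l, u % 2 = 0)
    (hn : (l.map (padicValInt 2)).Nodup) :
    ((l.map (fun x => x / 2)).map (padicValInt 2)).Nodup := by
  have e : l.map (padicValInt 2) =
      ((l.map (fun x => x / 2)).map (padicValInt 2)).map (fun k => k + 1) := by
    rw [List.map_map, List.map_map]
    apply List.map_congr_left
    intro u hu
    have h1 := h u hu
    have h2 := h0 u hu
    simp only [Function.comp]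
    rw [← val_double (x := u / 2) (by omega), show 2 * (u / 2) = u by omega]
  rw [e] at hn
  exact hn.of_map _

theorem good_list : ∀ (m : ℕ) (l : List ℤ), (l.map Int.natAbs).sum ≤ m → l ≠ [] →
    (∀ u ∈ l, u ≠ 0) → (l.map (padicValInt 2)).Nodup → Good l.length (cnt l) := by
  intro m
  induction m with
  | zero =>
    intro l hs hl h0 _
    have := sum_pos l hl h0
    omega
  | succ m ih =>
    intro l hs hl h0 hn
    by_cases hodd : ∃ u ∈ l, u % 2 = 1
    · obtain ⟨u, hu, hu1⟩ := hodd
      have hp : l.Perm (u :: l.erase u) := List.perm_cons_erase hu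
      set l' := l.erase u with hl'
      have hn' : ((u :: l').map (padicValInt 2)).Nodup := (hp.map _).nodup_iff.mp hn
      have h0' : ∀ w ∈ l', w ≠ 0 := fun w hw => h0 w (List.mem_of_mem_erase hw)
      have hev : ∀ w ∈ l', w % 2 = 0 := by
        intro w hw
        apply val_even (h0' w hw)
        rw [List.map_cons, List.nodup_cons] at hn'
        intro hw0
        apply hn'.1
        rw [val_odd hu1, ← hw0]
        exact List.mem_map_of_mem hw
      have hcnt : cnt l = cnt (u :: l') := by
        funext T
        exact cnt_perm hp T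
      have hlen : l.length = l'.length + 1 := by
        rw [hp.length_eq, List.length_cons]
      by_cases hnil : l' = []
      · rw [hcnt, hlen, hnil]
        exact good_one (fun t => cnt_single u t (by omega))
      · set l2 := l'.map (fun x => x / 2) with hl2
        have hl2' : l2.map (fun x => 2 * x) = l' := halve l' hev
        have hs2 : (l'.map Int.natAbs).sum = 2 * (l2.map Int.natAbs).sum := sum_halve l' hev
        have hss : (l.map Int.natAbs).sum = u.natAbs + (l'.map Int.natAbs).sum := by
          rw [(hp.map Int.natAbs).sum_eq]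
          simp
        have hl2n : l2 ≠ [] := by simpa [hl2] using hnil
        have h02 : ∀ w ∈ l2, w ≠ 0 := by
          intro w hw
          rw [hl2, List.mem_map] at hw
          obtain ⟨x, hx, rfl⟩ := hw
          have h1 := hev x hx
          have h2 := h0' x hx
          omega
        have hn2 : (l2.map (padicValInt 2)).Nodup := by
          rw [List.map_cons, List.nodup_cons] at hn'
          exact nodup_halve l' h0' hev hn'.2
        have hlen2 : l2.length = l'.length := by rw [hl2, List.length_map]
        have g := ih l2 (by omega) hl2n h02 hn2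
        obtain ⟨k, hk⟩ : ∃ k, l2.length = k + 1 := by
          have := List.length_pos_of_ne_nil hl2n
          exact ⟨l2.length - 1, by omega⟩
        rw [hk] at g
        rw [hlen, ← hlen2, hk, hcnt]
        obtain ⟨w, rfl⟩ : ∃ w, u = 2 * w + 1 := ⟨u / 2, by omega⟩
        apply g.step w
        · intro c
          rw [← hl2', cnt_cons_even]
        · intro c
          rw [← hl2', cnt_cons_odd]
    · have hev : ∀ w ∈ l, w % 2 = 0 := by
        intro w hw
        by_contra hne
        exact hodd ⟨w, hw, by omega⟩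
      set l2 := l.map (fun x => x / 2) with hl2
      have hl2' : l2.map (fun x => 2 * x) = l := halve l hev
      have hs2 : (l.map Int.natAbs).sum = 2 * (l2.map Int.natAbs).sum := sum_halve l hev
      have hl2n : l2 ≠ [] := by simpa [hl2] using hl
      have h02 : ∀ w ∈ l2, w ≠ 0 := by
        intro w hw
        rw [hl2, List.mem_map] at hw
        obtain ⟨x, hx, rfl⟩ := hw
        have h1 := hev x hx
        have h2 := h0 x hx
        omega
      have hpos := sum_pos l2 hl2n h02
      have hn2 : (l2.map (padicValInt 2)).Nodup := nodup_halve l h0 hev hn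
      have hlen2 : l2.length = l.length := by rw [hl2, List.length_map]
      have g := ih l2 (by omega) hl2n h02 hn2
      obtain ⟨k, hk⟩ : ∃ k, l2.length = k + 1 := by
        have := List.length_pos_of_ne_nil hl2n
        exact ⟨l2.length - 1, by omega⟩
      rw [hk] at g
      rw [← hlen2, hk]
      apply g.gap
      · intro c
        rw [← hl2']; exact (cnt_double l2 c).1
      · intro c
        rw [← hl2']; exact (cnt_double l2 c).2

/-- The maximum for lists with pairwise distinct 2-adic valuations. -/
theorem cnt_le (l : List ℤ) (hl : l ≠ []) (h0 : ∀ u ∈ l, u ≠ 0)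
    (hn : (l.map (padicValInt 2)).Nodup) (T : ℤ) : cnt l T ≤ Q l.length :=
  (good_list _ l le_rfl hl h0 hn).all T

/-! ### Powers of two -/

/-- The list `[1, 2, 4, …, 2^(m-1)]`. -/
def pows : ℕ → List ℤ
  | 0 => []
  | m + 1 => 1 :: (pows m).map (fun x => 2 * x)

/-- `(2^m - (-1)^m) / 3`. -/
def jac : ℕ → ℤ
  | 0 => 0
  | m + 1 => 2 * jac m + (-1) ^ m

theorem pows_even (m : ℕ) (c : ℤ) :
    cnt (pows (m + 1)) (2 * c) = cnt (pows m) (c + 1) + cnt (pows m) c + cnt (pows m) (c - 1) := by
  have := cnt_cons_even 0 (pows m) c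
  simpa [pows] using this

theorem pows_odd (m : ℕ) (c : ℤ) :
    cnt (pows (m + 1)) (2 * c + 1) = cnt (pows m) (c + 1) + cnt (pows m) c := by
  have := cnt_cons_odd 0 (pows m) c
  simpa [pows] using this

theorem pows_values (m : ℕ) :
    cnt (pows m) (jac m) = P m ∧ cnt (pows m) (jac m + (-1) ^ m) = Q m ∧
    cnt (pows m) (jac m - (-1) ^ m) = R m ∧ cnt (pows m) (jac m + 2 * (-1) ^ m) = S m := by
  induction m with
  | zero =>
    refine ⟨?_, ?_, ?_, ?_⟩ <;> simp [pows, jac, cnt, P, Q, R, S, quad]
  | succ m ih =>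
    obtain ⟨h1, h2, h3, h4⟩ := ih
    have e : ((-1 : ℤ)) ^ (m + 1) = -(-1) ^ m := by ring
    simp only [jac, e]
    rcases neg_one_pow_eq_or ℤ m with hm | hm
    · rw [hm] at h2 h3 h4 ⊢
      refine ⟨?_, ?_, ?_, ?_⟩
      · rw [pows_odd, h1, h2, P_succ]; ring
      · rw [show 2 * jac m + 1 + -1 = 2 * jac m by ring, pows_even, h1, h2, h3, Q_succ]; ring
      · rw [show 2 * jac m + 1 - -1 = 2 * (jac m + 1) by ring, pows_even,
          show jac m + 1 + 1 = jac m + 2 * 1 by ring, show jac m + 1 - 1 = jac m by ring,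
          h1, h2, h4, R_succ]; ring
      · rw [show 2 * jac m + 1 + 2 * -1 = 2 * (jac m - 1) + 1 by ring, pows_odd,
          show jac m - 1 + 1 = jac m by ring, h1, h3, S_succ]
    · rw [hm] at h2 h3 h4 ⊢
      refine ⟨?_, ?_, ?_, ?_⟩
      · rw [show 2 * jac m + -1 = 2 * (jac m + -1) + 1 by ring, pows_odd,
          show jac m + -1 + 1 = jac m by ring, h1, h2, P_succ]
      · rw [show 2 * jac m + -1 + -(-1) = 2 * jac m by ring, pows_even,
          show jac m + 1 = jac m - -1 by ring, show jac m - 1 = jac m + -1 by ring,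
          h1, h2, h3, Q_succ]; ring
      · rw [show 2 * jac m + -1 - -(-1) = 2 * (jac m + -1) by ring, pows_even,
          show jac m + -1 + 1 = jac m by ring, show jac m + -1 - 1 = jac m + 2 * -1 by ring,
          h1, h2, h4, R_succ]
      · rw [show 2 * jac m + -1 + 2 * -(-1) = 2 * jac m + 1 by ring, pows_odd,
          show jac m + 1 = jac m - -1 by ring, h1, h3, S_succ]; ring

theorem cnt_neg (l : List ℤ) : ∀ T, cnt l (-T) = cnt l T := by
  induction l with
  | nil => intro T; simp [cnt]
  | cons u l ih =>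
    intro T
    simp only [cnt]
    rw [← ih (T + 2 * u), ← ih (T + u), ← ih (T - u), ← ih (T - 2 * u), ih T,
      show -(T + 2 * u) = -T - 2 * u by ring, show -(T + u) = -T - u by ring,
      show -(T - u) = -T + u by ring, show -(T - 2 * u) = -T + 2 * u by ring]
    ring

theorem jac_odd (m : ℕ) : jac (m + 1) % 2 = 1 := by
  simp only [jac]
  rcases neg_one_pow_eq_or ℤ m with hm | hm <;> rw [hm] <;> omega

/-- The hyperplane `jac (m+1) x₀ + 2 x₁ + … + 2^(m+1) x_{m+1} = 0`. -/
theorem cnt_special (m : ℕ) :
    2 * P (m + 1) ≤ cnt (jac (m + 1) :: (pows (m + 1)).map (fun x => 2 * x)) 0 := by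
  obtain ⟨w, hw⟩ : ∃ w, jac (m + 1) = 2 * w + 1 := ⟨jac (m + 1) / 2, by
    have := jac_odd m; omega⟩
  have h := cnt_cons_even w (pows (m + 1)) 0
  rw [← hw, mul_zero, zero_add, zero_sub, cnt_neg, (pows_values (m + 1)).1] at h
  rw [h]
  omega

end Pool.Agent.Helper23.Hyper
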