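import Pool.Agent.Helper23.Hyper.Lists

/-!
# Scaling, and elimination steps at odd primes
-/

namespace Pool.Agent.Helper23.Hyper

theorem cnt_mul (c : ℤ) (hc : c ≠ 0) (l : List ℤ) : ∀ t : ℤ,
    cnt (l.map (fun x => c * x)) (c * t) = cnt l t := by
  induction l with
  | nil =>
    intro t
    simp only [List.map_nil, cnt]
    by_cases h : t = 0
    · simp [h]
    · rw [if_neg (mul_ne_zero hc h), if_neg h]
  | cons u l ih =>
    intro t
    simp only [List.map_cons, cnt]
    rw [show c * t + 2 * (c * u) = c * (t + 2 * u) by ring,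
        show c * t + c * u = c * (t + u) by ring,
        show c * t - c * u = c * (t - u) by ring,
        show c * t - 2 * (c * u) = c * (t - 2 * u) by ring, ih, ih, ih, ih, ih]

theorem cnt_mul_zero (c : ℤ) (l : List ℤ) : ∀ t : ℤ, ¬ c ∣ t →
    cnt (l.map (fun x => c * x)) t = 0 := by
  induction l with
  | nil =>
    intro t ht
    simp only [List.map_nil, cnt]
    rw [if_neg (by rintro rfl; exact ht (dvd_zero c))]
  | cons u l ih =>
    intro t ht
    simp only [List.map_cons, cnt]
    have h : ∀ s : ℤ, ¬ c ∣ t + c * s := fun s hs => ht ((dvd_add_left (dvd_mul_right c s)).mp hs)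
    rw [show t + 2 * (c * u) = t + c * (2 * u) by ring,
        show t - c * u = t + c * (-u) by ring,
        show t - 2 * (c * u) = t + c * (-2 * u) by ring, ih _ (h _), ih _ (h _), ih _ (h _),
        ih _ (h _), ih _ ht]

/-- Scaling by an odd integer. -/
theorem Good.scale_odd {k : ℕ} {l : List ℤ} (h : Good (k + 1) (cnt l)) (c : ℤ) (hc : c % 2 = 1) :
    Good (k + 1) (cnt (l.map (fun x => c * x))) := by
  have hc0 : c ≠ 0 := by rintro rfl; simp at hc
  have hi := ineqs k
  have e3 : R (k + 1 + 1) = P (k + 1) + Q (k + 1) + S (k + 1) := R_succ _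
  have hall : ∀ t, cnt (l.map (fun x => c * x)) t ≤ Q (k + 1) := by
    intro t
    by_cases hd : c ∣ t
    · obtain ⟨s, rfl⟩ := hd
      rw [cnt_mul c hc0]; exact h.all s
    · rw [cnt_mul_zero c l t hd]; exact Nat.zero_le _
  have hpar : ∀ s : ℤ, (c * s) % 2 = s % 2 := by
    intro s; rw [Int.mul_emod, hc]; simp
  have hodd : ∀ t, t % 2 = 1 → cnt (l.map (fun x => c * x)) t ≤ P (k + 1) := by
    intro t ht
    by_cases hd : c ∣ t
    · obtain ⟨s, rfl⟩ := hd
      rw [cnt_mul c hc0]; exact h.odd s (by rw [← hpar]; exact ht)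
    · rw [cnt_mul_zero c l t hd]; exact Nat.zero_le _
  refine ⟨hall, hodd, ?_, ?_⟩
  · intro e f he hf hef
    by_cases hd : c ∣ e
    · by_cases hd' : c ∣ f
      · obtain ⟨s, rfl⟩ := hd
        obtain ⟨r, rfl⟩ := hd'
        rw [cnt_mul c hc0, cnt_mul c hc0]
        apply h.pair
        · rw [← hpar]; exact he
        · rw [← hpar]; exact hf
        · rw [hpar] at he hf
          obtain ⟨s', rfl⟩ : ∃ s', s = 2 * s' := ⟨s / 2, by omega⟩
          obtain ⟨r', rfl⟩ : ∃ r', r = 2 * r' := ⟨r / 2, by omega⟩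
          have h1 : c * (2 * s') + c * (2 * r') = 2 * (c * (s' + r')) := by ring
          rw [h1] at hef
          have h2 := hpar (s' + r')
          omega
      · rw [cnt_mul_zero c l f hd']
        have := hall e
        omega
    · rw [cnt_mul_zero c l e hd]
      have := hall f
      omega
  · intro t v ht hv
    by_cases hdv : c ∣ v
    · by_cases hd : c ∣ t
      · obtain ⟨s, rfl⟩ := hd
        obtain ⟨r, rfl⟩ := hdv
        rw [show c * s - c * r = c * (s - r) by ring, show c * s + c * r = c * (s + r) by ring,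
          cnt_mul c hc0, cnt_mul c hc0, cnt_mul c hc0]
        apply h.triple
        · rw [← hpar]; exact ht
        · rw [← hpar]; exact hv
      · rw [cnt_mul_zero c l t hd, cnt_mul_zero c l (t - v) (fun h' => hd ((dvd_sub_left hdv).mp h')),
          cnt_mul_zero c l (t + v) (fun h' => hd ((dvd_add_left hdv).mp h'))]
        exact Nat.zero_le _
    · by_cases hd : c ∣ t
      · rw [cnt_mul_zero c l (t - v) (fun h' => hdv ((dvd_sub_right hd).mp h')),
          cnt_mul_zero c l (t + v) (fun h' => hdv ((dvd_add_right hd).mp h'))]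
        have := hall t
        omega
      · rw [cnt_mul_zero c l t hd]
        have h1 := hodd (t - v) (by omega)
        have h2 := hodd (t + v) (by omega)
        omega

/-- Scaling by an arbitrary nonzero integer. -/
theorem Good.scale {k : ℕ} : ∀ (m : ℕ) (c : ℤ), c.natAbs ≤ m → c ≠ 0 → ∀ {l : List ℤ},
    Good (k + 1) (cnt l) → Good (k + 1) (cnt (l.map (fun x => c * x))) := by
  intro m
  induction m with
  | zero =>
    intro c hm hc
    omega
  | succ m ih =>
    intro c hm hc l h
    rcases Int.emod_two_eq_zero_or_one c with h2 | h2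
    · obtain ⟨d, rfl⟩ : ∃ d, c = 2 * d := ⟨c / 2, by omega⟩
      have h3 := ih d (by omega) (by omega) h
      have h4 : l.map (fun x => 2 * d * x) = (l.map (fun x => d * x)).map (fun x => 2 * x) := by
        rw [List.map_map]
        apply List.map_congr_left
        intro x _
        simp only [Function.comp]
        ring
      rw [h4]
      exact h3.gap (fun c => (cnt_double _ c).1) (fun c => (cnt_double _ c).2)
    · exact h.scale_odd c h2

/-- A crude step: all values are at most `Q (k+1)`. -/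
theorem Good.of_le {k : ℕ} {N' : ℤ → ℕ} (h : ∀ t, N' t ≤ Q (k + 1)) : Good (k + 2) N' := by
  have hi := ineqs k
  have e1 : P (k + 1 + 1) = P (k + 1) + Q (k + 1) := P_succ _
  have e2 : Q (k + 1 + 1) = P (k + 1) + Q (k + 1) + R (k + 1) := Q_succ _
  have e3 : R (k + 1 + 1) = P (k + 1) + Q (k + 1) + S (k + 1) := R_succ _
  have e4 : S (k + 1 + 1) = P (k + 1) + R (k + 1) := S_succ _
  have e5 : R (k + 1 + 1 + 1) = P (k + 1 + 1) + Q (k + 1 + 1) + S (k + 1 + 1) := R_succ _
  refine ⟨fun t => ?_, fun t _ => ?_, fun e f _ _ _ => ?_, fun t v _ _ => ?_⟩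
  · have := h t
    show N' t ≤ Q (k + 1 + 1)
    omega
  · have := h t
    show N' t ≤ P (k + 1 + 1)
    omega
  · have h1 := h e
    have h2 := h f
    show N' e + N' f ≤ Q (k + 1 + 1) + R (k + 1 + 1)
    omega
  · have h1 := h (t - v)
    have h2 := h t
    have h3 := h (t + v)
    show N' (t - v) + N' t + N' (t + v) ≤ R (k + 1 + 1 + 1)
    omega

theorem ineqs3 : ∀ n : ℕ, Q (n + 1) ≤ P (n + 1) + R (n + 1) ∧ Q (n + 1) ≤ P (n + 1) + S (n + 1) ∧
    2 * Q (n + 1) ≤ P (n + 1) + 2 * R (n + 1) := by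
  intro n
  cases n with
  | zero => decide
  | succ n =>
    have hi := ineqs n
    rw [P_succ (n + 1), Q_succ (n + 1), R_succ (n + 1), S_succ (n + 1)]
    omega

/-- The step at the prime three. -/
theorem Good.step_three {k : ℕ} {N N' : ℤ → ℕ} (h : Good (k + 1) N) (u : ℤ)
    (h3 : ∀ t, ∃ c, N' t ≤ N c + N (c + u) ∧ ((t + c) % 2 = 0 ∨ (t + c + u) % 2 = 0)) :
    Good (k + 2) N' := by
  have hi := ineqs k
  have hi3 := ineqs3 k
  have e1 : P (k + 1 + 1) = P (k + 1) + Q (k + 1) := P_succ _
  have e2 : Q (k + 1 + 1) = P (k + 1) + Q (k + 1) + R (k + 1) := Q_succ _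
  have e3 : R (k + 1 + 1) = P (k + 1) + Q (k + 1) + S (k + 1) := R_succ _
  have e4 : S (k + 1 + 1) = P (k + 1) + R (k + 1) := S_succ _
  have e5 : R (k + 1 + 1 + 1) = P (k + 1 + 1) + Q (k + 1 + 1) + S (k + 1 + 1) := R_succ _
  have hall : ∀ t, N' t ≤ 2 * Q (k + 1) := by
    intro t
    obtain ⟨c, hc, _⟩ := h3 t
    have h1 := h.all c
    have h2 := h.all (c + u)
    omega
  have hodd : ∀ t, t % 2 = 1 → N' t ≤ P (k + 1 + 1) := by
    intro t ht
    obtain ⟨c, hc, hp⟩ := h3 t
    have a1 := h.all c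
    have a2 := h.all (c + u)
    rcases Int.emod_two_eq_zero_or_one c with hc2 | hc2
    · rcases Int.emod_two_eq_zero_or_one (c + u) with hu2 | hu2
      · omega
      · have := h.odd _ hu2
        omega
    · have := h.odd _ hc2
      omega
  refine ⟨fun t => ?_, hodd, fun e f _ _ _ => ?_, fun t v ht hv => ?_⟩
  · have := hall t
    show N' t ≤ Q (k + 1 + 1)
    omega
  · have h1 := hall e
    have h2 := hall f
    show N' e + N' f ≤ Q (k + 1 + 1) + R (k + 1 + 1)
    omega
  · have h1 := hodd (t - v) (by omega)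
    have h2 := hall t
    have h4 := hodd (t + v) (by omega)
    show N' (t - v) + N' t + N' (t + v) ≤ R (k + 1 + 1 + 1)
    omega

end Pool.Agent.Helper23.Hyper
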